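import Pool.Agent.H20.RT.Pat

/-!
Board `rt`, row S2.
-/

set_option autoImplicit false

namespace Pool.RT

theorem S2_thm (hSTP : STPStmt) : S2Stmt := by
  intro a b
  have h := hSTP (wl 0 (a + b) b 0 0 0 0 0 0)
    (List.replicate b 5 ++ (List.replicate a 4 ++ List.replicate b 5)) 0 0 0 a (2 * b) 0 0 0 0
    (by
      intro x hx
      simp only [wl, List.mem_append, List.mem_replicate] at hx
      omega)
    (by
      intro x hx
      simp only [List.mem_append, List.mem_replicate] at hx
      omega)
    (by
      simp only [wl, List.replicate_zero, List.nil_append, List.append_nil, List.reverse_append,
        List.reverse_replicate, Nat.ofDigits_append, od_rep, List.length_replicate, pow_R, R_add]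
      ring)
    (by simp [List.count_append, List.count_replicate])
    (by simp [List.count_append, List.count_replicate])
    (by simp [List.count_append, List.count_replicate])
    (by simp [List.count_append, List.count_replicate])
    (by simp [List.count_append, List.count_replicate]; try ring)
    (by simp [List.count_append, List.count_replicate])
    (by simp [List.count_append, List.count_replicate])
    (by simp [List.count_append, List.count_replicate])
    (by simp [List.count_append, List.count_replicate])
  exact h

end Pool.RT
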